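import Mathlib

set_option autoImplicit false

/-!
# A stable GKK tau-matrix of order 4 that violates Newton's inequalities

The matrix is
`A = [[100,30,30,30],[30,10,9,9],[30,0,10,9],[30,0,0,10]]`.
Its normalised sums of principal minors are `(c_0,...,c_4) = (1, 65/2, 100, 325, 100)`, so
`c_2 ^ 2 = 10000 < 10562.5 = c_1 * c_3`.
-/

namespace Pool.Agent.Results.MP_ba9f40_al.Counterexample

open Matrix
open scoped ComplexOrder

/-! ## The definitions of the problem -/

/-- The principal submatrix `A(α)`, rows and columns listed in increasing order. -/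
def principal {n : ℕ} (A : Matrix (Fin n) (Fin n) ℂ) (α : Finset (Fin n)) :
    Matrix (Fin α.card) (Fin α.card) ℂ :=
  A.submatrix (α.orderEmbOfFin rfl) (α.orderEmbOfFin rfl)

/-- The minor `A[α,β] = det A(α,β)`, for index sets of equal size listed in increasing order. -/
noncomputable def minor {n : ℕ} (A : Matrix (Fin n) (Fin n) ℂ) (α β : Finset (Fin n))
    (h : β.card = α.card) : ℂ :=
  (A.submatrix (α.orderEmbOfFin rfl) (β.orderEmbOfFin h)).det

/-- `A` is a P-matrix: `A[α] > 0` for every nonempty `α`. (In `ℂ`, `0 < z` says that `z` is a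
positive real number.) -/
def IsPMatrix {n : ℕ} (A : Matrix (Fin n) (Fin n) ℂ) : Prop :=
  ∀ α : Finset (Fin n), α.Nonempty → 0 < minor A α α rfl

/-- `A` is weakly sign-symmetric: `A[α,β] A[β,α] ≥ 0` for all almost principal minors, that is
the minors with `|α| = |β|` and dispersal `|α| - |α ∩ β| = 1`. -/
def IsWeaklySignSymmetric {n : ℕ} (A : Matrix (Fin n) (Fin n) ℂ) : Prop :=
  ∀ (α β : Finset (Fin n)) (h : β.card = α.card), α.card - (α ∩ β).card = 1 →
    0 ≤ minor A α β h * minor A β α h.symm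

/-- `A` is GKK: a weakly sign-symmetric P-matrix. -/
def IsGKK {n : ℕ} (A : Matrix (Fin n) (Fin n) ℂ) : Prop :=
  IsWeaklySignSymmetric A ∧ IsPMatrix A

/-- `l(B) = min (σ(B) ∩ ℝ)`, the least real eigenvalue of `B`, with `min ∅ = ∞`.
(The infimum is over a finite set, so it is a minimum when the set is nonempty.) -/
noncomputable def leastRealEigenvalue {k : ℕ} (B : Matrix (Fin k) (Fin k) ℂ) : EReal :=
  sInf ((fun x : ℝ => (x : EReal)) '' {x : ℝ | (x : ℂ) ∈ spectrum ℂ B})

/-- `A` is an ω-matrix: `l(A(α)) ≤ l(A(β)) < ∞` whenever `∅ ≠ β ⊆ α`. -/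
def IsOmegaMatrix {n : ℕ} (A : Matrix (Fin n) (Fin n) ℂ) : Prop :=
  ∀ α β : Finset (Fin n), β.Nonempty → β ⊆ α →
    leastRealEigenvalue (principal A α) ≤ leastRealEigenvalue (principal A β) ∧
      leastRealEigenvalue (principal A β) < ⊤

/-- `A` is a τ-matrix: an ω-matrix with `l(A) ≥ 0`. -/
def IsTauMatrix {n : ℕ} (A : Matrix (Fin n) (Fin n) ℂ) : Prop :=
  IsOmegaMatrix A ∧ 0 ≤ leastRealEigenvalue A

/-- `A` is stable: every eigenvalue of `A` has positive real part. -/
def IsStable {n : ℕ} (A : Matrix (Fin n) (Fin n) ℂ) : Prop :=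
  ∀ z ∈ spectrum ℂ A, 0 < z.re

/-- `c_j`: the sum of the principal minors of order `j` divided by the binomial coefficient
`n` choose `j`. -/
noncomputable def c {n : ℕ} (A : Matrix (Fin n) (Fin n) ℂ) (j : ℕ) : ℂ :=
  (n.choose j : ℂ)⁻¹ * ∑ α ∈ Finset.powersetCard j (Finset.univ : Finset (Fin n)), minor A α α rfl

/-! ## Computing minors -/

/-- Laplace expansion along the first row, in a form convenient for evaluation. -/
def detL : (k : ℕ) → (ℕ → ℕ → ℤ) → ℤ
  | 0, _ => 1
  | k + 1, M => (List.range (k + 1)).foldr (fun j s => (-1) ^ j * M 0 j *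
      detL k (fun i l => M (i + 1) (if l < j then l else l + 1)) + s) 0

lemma foldr_range_eq_sum (k : ℕ) (f : ℕ → ℤ) :
    (List.range k).foldr (fun j s => f j + s) 0 = ∑ j ∈ Finset.range k, f j := by
  have h : ∀ (l : List ℕ), l.foldr (fun j s => f j + s) 0 = (l.map f).sum := by
    intro l
    induction l with
    | nil => simp
    | cons a l ih => simp [ih]
  rw [h]
  rfl

lemma detL_eq : ∀ (k : ℕ) (M : ℕ → ℕ → ℤ),
    detL k M = (Matrix.of fun i j : Fin k => M i j).det
  | 0, M => by simp [detL]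
  | k + 1, M => by
    rw [detL, foldr_range_eq_sum (k + 1) (fun j => (-1) ^ j * M 0 j *
      detL k (fun i l => M (i + 1) (if l < j then l else l + 1))), Matrix.det_succ_row_zero,
      Finset.sum_range]
    refine Finset.sum_congr rfl fun j _ => ?_
    rw [detL_eq k]
    have : (Matrix.of fun i l : Fin k => M (i + 1) (if (l : ℕ) < j then l else l + 1)) =
        (Matrix.of fun i j : Fin (k + 1) => M i j).submatrix Fin.succ j.succAbove := by
      ext i l
      simp only [Matrix.of_apply, Matrix.submatrix_apply, Fin.val_succ, Fin.succAbove,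
        Fin.lt_def, Fin.val_castSucc]
      congr 1
      split_ifs <;> simp
    rw [this]
    simp

/-- The integer matrix. -/
def MZ : Matrix (Fin 4) (Fin 4) ℤ := !![100,30,30,30;30,10,9,9;30,0,10,9;30,0,0,10]

/-- The counterexample, as a complex matrix. -/
noncomputable def M : Matrix (Fin 4) (Fin 4) ℂ := MZ.map (Int.cast : ℤ → ℂ)

/-- The elements of a subset of `{0,1,2,3}` in increasing order. -/
def emb (α : Finset (Fin 4)) (i : ℕ) : Fin 4 := ((List.finRange 4).filter (· ∈ α)).getD i 0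

lemma emb_spec : ∀ α : Finset (Fin 4), (∀ i : Fin α.card, emb α i ∈ α) ∧
    ∀ i j : Fin α.card, i < j → emb α i < emb α j := by
  decide +kernel

lemma orderEmb_eq (α : Finset (Fin 4)) {k : ℕ} (h : α.card = k) (i : Fin k) :
    α.orderEmbOfFin h i = emb α i := by
  subst h
  have := Finset.orderEmbOfFin_unique (s := α) rfl (f := fun i : Fin α.card => emb α i)
    (emb_spec α).1 (fun i j hij => (emb_spec α).2 i j hij)
  rw [← this]

/-- The minors of `MZ`, in a form convenient for evaluation. -/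
def minL (α β : Finset (Fin 4)) : ℤ := detL α.card (fun i j => MZ (emb α i) (emb β j))

lemma minor_M (α β : Finset (Fin 4)) (h : β.card = α.card) :
    minor M α β h = ((minL α β : ℤ) : ℂ) := by
  unfold minor minL
  rw [detL_eq]
  have h1 : M.submatrix (α.orderEmbOfFin rfl) (β.orderEmbOfFin h) =
      (Int.castRingHom ℂ).mapMatrix
        (Matrix.of fun i j : Fin α.card => MZ (emb α i) (emb β j)) := by
    ext i j
    simp [M, orderEmb_eq]
  rw [h1, ← RingHom.map_det]
  rfl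

set_option maxRecDepth 10000 in
lemma minL_pos : ∀ α : Finset (Fin 4), 0 < minL α α := by decide +kernel

set_option maxRecDepth 10000 in
lemma minL_wss : ∀ α β : Finset (Fin 4), β.card = α.card → α.card - (α ∩ β).card = 1 →
    0 ≤ minL α β * minL β α := by decide +kernel

lemma M_pmatrix : IsPMatrix M := by
  intro α _
  rw [minor_M]
  exact_mod_cast minL_pos α

lemma M_wss : IsWeaklySignSymmetric M := by
  intro α β h hd
  rw [minor_M, minor_M]
  exact_mod_cast minL_wss α β h hd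

lemma c_eq (j : ℕ) : c M j = (Nat.choose 4 j : ℂ)⁻¹ *
    ((∑ α ∈ Finset.powersetCard j (Finset.univ : Finset (Fin 4)), minL α α : ℤ) : ℂ) := by
  unfold c
  congr 1
  push_cast
  exact Finset.sum_congr rfl fun α _ => minor_M α α rfl

set_option maxRecDepth 10000 in
lemma sum1 : ∑ α ∈ Finset.powersetCard 1 (Finset.univ : Finset (Fin 4)), minL α α = 130 := by
  decide +kernel

set_option maxRecDepth 10000 in
lemma sum2 : ∑ α ∈ Finset.powersetCard 2 (Finset.univ : Finset (Fin 4)), minL α α = 600 := by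
  decide +kernel

set_option maxRecDepth 10000 in
lemma sum3 : ∑ α ∈ Finset.powersetCard 3 (Finset.univ : Finset (Fin 4)), minL α α = 1300 := by
  decide +kernel

lemma M_newton : c M 2 ^ 2 < c M 1 * c M 3 := by
  rw [c_eq, c_eq, c_eq, sum1, sum2, sum3]
  have h : (((4 : ℕ).choose 2 : ℂ)⁻¹ * ((600 : ℤ) : ℂ)) ^ 2 = ((10000 : ℝ) : ℂ) := by
    norm_num [Nat.choose]
  have h' : ((4 : ℕ).choose 1 : ℂ)⁻¹ * ((130 : ℤ) : ℂ) * (((4 : ℕ).choose 3 : ℂ)⁻¹ *
      ((1300 : ℤ) : ℂ)) = ((21125 / 2 : ℝ) : ℂ) := by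
    norm_num [Nat.choose]
  rw [h, h']
  have : (10000 : ℝ) < 21125 / 2 := by norm_num
  exact_mod_cast this

/-! ## Spectra -/

lemma mem_spectrum_iff {k : ℕ} (B : Matrix (Fin k) (Fin k) ℂ) (z : ℂ) :
    z ∈ spectrum ℂ B ↔ (z • (1 : Matrix (Fin k) (Fin k) ℂ) - B).det = 0 := by
  rw [spectrum.mem_iff, Matrix.isUnit_iff_isUnit_det, isUnit_iff_ne_zero, not_not,
    Algebra.algebraMap_eq_smul_one]

lemma le_lre {k : ℕ} (B : Matrix (Fin k) (Fin k) ℂ) (p : ℝ → ℝ)
    (hp : ∀ x : ℝ, ((x : ℂ) • (1 : Matrix (Fin k) (Fin k) ℂ) - B).det = ((p x : ℝ) : ℂ))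
    (a : ℝ) (ha : ∀ x < a, p x ≠ 0) : (a : EReal) ≤ leastRealEigenvalue B := by
  refine le_sInf ?_
  rintro _ ⟨x, hx, rfl⟩
  by_contra hlt
  have hxa : x < a := by
    have h2 : ((x : ℝ) : EReal) < (a : EReal) := not_le.1 hlt
    exact_mod_cast h2
  have h0 := (mem_spectrum_iff B x).1 hx
  rw [hp x] at h0
  exact ha x hxa (by exact_mod_cast h0)

lemma lre_le {k : ℕ} (B : Matrix (Fin k) (Fin k) ℂ) (p : ℝ → ℝ)
    (hp : ∀ x : ℝ, ((x : ℂ) • (1 : Matrix (Fin k) (Fin k) ℂ) - B).det = ((p x : ℝ) : ℂ))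
    (b : ℝ) (hb : ∃ x ≤ b, p x = 0) : leastRealEigenvalue B ≤ (b : EReal) := by
  obtain ⟨x, hxb, hx⟩ := hb
  have hmem : (x : ℂ) ∈ spectrum ℂ B := by
    rw [mem_spectrum_iff, hp x, hx]
    simp
  have h1 : leastRealEigenvalue B ≤ (x : EReal) := sInf_le ⟨x, hmem, rfl⟩
  exact h1.trans (by exact_mod_cast hxb)

/-- The complex matrix with the given integer entries. -/
noncomputable def toC {k : ℕ} (B : Matrix (Fin k) (Fin k) ℤ) : Matrix (Fin k) (Fin k) ℂ :=
  B.map (Int.cast : ℤ → ℂ)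

lemma det_100 (x : ℂ) : (x • (1 : Matrix (Fin 1) (Fin 1) ℂ) - toC !![100]).det = x - 100 := by
  simp [toC]

lemma det_10 (x : ℂ) : (x • (1 : Matrix (Fin 1) (Fin 1) ℂ) - toC !![10]).det = x - 10 := by
  simp [toC]

lemma det_A2 (x : ℂ) : (x • (1 : Matrix (Fin 2) (Fin 2) ℂ) - toC !![100, 30; 30, 10]).det =
    x ^ 2 - 110 * x + 100 := by
  simp [toC, Matrix.det_fin_two]
  ring

lemma det_U2 (x : ℂ) : (x • (1 : Matrix (Fin 2) (Fin 2) ℂ) - toC !![10, 9; 0, 10]).det =
    (x - 10) ^ 2 := by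
  simp [toC, Matrix.det_fin_two]
  ring

lemma det_A3 (x : ℂ) : (x • (1 : Matrix (Fin 3) (Fin 3) ℂ) -
    toC !![100, 30, 30; 30, 10, 9; 30, 0, 10]).det = x ^ 3 - 120 * x ^ 2 + 300 * x - 100 := by
  simp [toC, Matrix.det_fin_three]
  ring

lemma det_U3 (x : ℂ) : (x • (1 : Matrix (Fin 3) (Fin 3) ℂ) -
    toC !![10, 9, 9; 0, 10, 9; 0, 0, 10]).det = (x - 10) ^ 3 := by
  simp [toC, Matrix.det_fin_three]
  ring

lemma det_A4 (x : ℂ) : (x • (1 : Matrix (Fin 4) (Fin 4) ℂ) - toC MZ).det =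
    x ^ 4 - 130 * x ^ 3 + 600 * x ^ 2 - 1300 * x + 100 := by
  simp [toC, MZ, Matrix.det_succ_row_zero, Fin.sum_univ_succ, Matrix.one_apply, Fin.succAbove,
    Matrix.submatrix_apply]
  ring

/-- Lower bounds, in hundredths, for the least real eigenvalues of the principal submatrices. -/
def lo (α : Finset (Fin 4)) : ℕ :=
  if 0 ∈ α then
    if α.card = 1 then 10000 else if α.card = 2 then 90 else if α.card = 3 then 39 else 0
  else 1000

/-- Upper bounds, in hundredths, for the least real eigenvalues of the principal submatrices. -/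
def hi (α : Finset (Fin 4)) : ℕ :=
  if 0 ∈ α then
    if α.card = 1 then 10000 else if α.card = 2 then 100 else if α.card = 3 then 50 else 10
  else 1000

lemma hi_le_lo : ∀ α β : Finset (Fin 4), β.Nonempty → β ⊆ α → β ≠ α → hi α ≤ lo β := by
  decide +kernel

/-- `B` has the same entries as the principal submatrix of `MZ` on `α`. -/
def Fits (α : Finset (Fin 4)) (k : ℕ) (B : Matrix (Fin k) (Fin k) ℤ) : Prop :=
  α.card = k ∧ ∀ i j : Fin k, MZ (emb α i) (emb α j) = B i j

instance (α : Finset (Fin 4)) (k : ℕ) (B : Matrix (Fin k) (Fin k) ℤ) : Decidable (Fits α k B) :=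
  haveI _h1 : ∀ i : Fin k, Decidable (∀ j : Fin k, MZ (emb α i) (emb α j) = B i j) := fun _ =>
    Fintype.decidableForallFintype
  haveI _h2 : Decidable (∀ i j : Fin k, MZ (emb α i) (emb α j) = B i j) :=
    Fintype.decidableForallFintype
  instDecidableAnd

lemma all_fit : ∀ α : Finset (Fin 4), α.Nonempty →
    (Fits α 1 !![100] ∧ lo α = 10000 ∧ hi α = 10000) ∨
    (Fits α 1 !![10] ∧ lo α = 1000 ∧ hi α = 1000) ∨
    (Fits α 2 !![100, 30; 30, 10] ∧ lo α = 90 ∧ hi α = 100) ∨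
    (Fits α 2 !![10, 9; 0, 10] ∧ lo α = 1000 ∧ hi α = 1000) ∨
    (Fits α 3 !![100, 30, 30; 30, 10, 9; 30, 0, 10] ∧ lo α = 39 ∧ hi α = 50) ∨
    (Fits α 3 !![10, 9, 9; 0, 10, 9; 0, 0, 10] ∧ lo α = 1000 ∧ hi α = 1000) ∨
    (Fits α 4 MZ ∧ lo α = 0 ∧ hi α = 10) := by
  decide +kernel

lemma lre_of_fits (α : Finset (Fin 4)) {k : ℕ} (B : Matrix (Fin k) (Fin k) ℤ)
    (h : Fits α k B) : leastRealEigenvalue (principal M α) = leastRealEigenvalue (toC B) := by
  obtain ⟨hk, hB⟩ := h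
  subst hk
  congr 1
  ext i j
  simp [principal, orderEmb_eq, M, toC, hB]

lemma lre_principal_aux (α : Finset (Fin 4)) {k : ℕ} (B : Matrix (Fin k) (Fin k) ℤ)
    (h : Fits α k B) (p : ℝ → ℝ)
    (hp : ∀ x : ℝ, ((x : ℂ) • (1 : Matrix (Fin k) (Fin k) ℂ) - toC B).det = ((p x : ℝ) : ℂ))
    (ha : ∀ x < ((lo α : ℝ) / 100), p x ≠ 0) (hb : ∃ x ≤ ((hi α : ℝ) / 100), p x = 0) :
    ((((lo α : ℝ) / 100 : ℝ)) : EReal) ≤ leastRealEigenvalue (principal M α) ∧
      leastRealEigenvalue (principal M α) ≤ ((((hi α : ℝ) / 100 : ℝ)) : EReal) := by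
  rw [lre_of_fits α B h]
  exact ⟨le_lre _ p hp _ ha, lre_le _ p hp _ hb⟩

lemma lre_bounds (α : Finset (Fin 4)) (hα : α.Nonempty) :
    ((((lo α : ℝ) / 100 : ℝ)) : EReal) ≤ leastRealEigenvalue (principal M α) ∧
      leastRealEigenvalue (principal M α) ≤ ((((hi α : ℝ) / 100 : ℝ)) : EReal) := by
  rcases all_fit α hα with h | h | h | h | h | h | h
  · obtain ⟨hf, hl, hh⟩ := h
    refine lre_principal_aux α _ hf (fun x => x - 100) (fun x => ?_) ?_ ?_
    · rw [det_100]; push_cast; ring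
    · intro x hx; rw [hl] at hx; norm_num at hx; intro h0; linarith
    · rw [hh]; exact ⟨100, by norm_num, by norm_num⟩
  · obtain ⟨hf, hl, hh⟩ := h
    refine lre_principal_aux α _ hf (fun x => x - 10) (fun x => ?_) ?_ ?_
    · rw [det_10]; push_cast; ring
    · intro x hx; rw [hl] at hx; norm_num at hx; intro h0; linarith
    · rw [hh]; exact ⟨10, by norm_num, by norm_num⟩
  · obtain ⟨hf, hl, hh⟩ := h
    refine lre_principal_aux α _ hf (fun x => x ^ 2 - 110 * x + 100) (fun x => ?_) ?_ ?_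
    · rw [det_A2]; push_cast; ring
    · intro x hx; rw [hl] at hx; norm_num at hx; intro h0; nlinarith
    · rw [hh]
      have hc : ContinuousOn (fun x : ℝ => x ^ 2 - 110 * x + 100) (Set.Icc 0 1) := by fun_prop
      obtain ⟨x, hx, hx0⟩ := intermediate_value_Icc' (by norm_num : (0 : ℝ) ≤ 1) hc
        (by norm_num : (0 : ℝ) ∈ Set.Icc _ _)
      exact ⟨x, by have := hx.2; norm_num; linarith, hx0⟩
  · obtain ⟨hf, hl, hh⟩ := h
    refine lre_principal_aux α _ hf (fun x => (x - 10) ^ 2) (fun x => ?_) ?_ ?_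
    · rw [det_U2]; push_cast; ring
    · intro x hx; rw [hl] at hx; norm_num at hx;
      exact pow_ne_zero _ (by intro h0; linarith)
    · rw [hh]; exact ⟨10, by norm_num, by norm_num⟩
  · obtain ⟨hf, hl, hh⟩ := h
    refine lre_principal_aux α _ hf (fun x => x ^ 3 - 120 * x ^ 2 + 300 * x - 100)
      (fun x => ?_) ?_ ?_
    · rw [det_A3]; push_cast; ring
    · intro x hx; rw [hl] at hx; norm_num at hx; intro h0
      have hx' : x < 39 / 100 := by linarith
      have h1 : x ^ 3 - 120 * x ^ 2 + 300 * x - 100 =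
        (x - 39 / 100) * (x ^ 2 + (39 / 100 - 120) * x + (39 / 100) ^ 2 - 120 * (39 / 100) + 300)
          + ((39 / 100) ^ 3 - 120 * (39 / 100) ^ 2 + 300 * (39 / 100) - 100) := by ring
      rw [h1] at h0
      have h2 : 0 < x ^ 2 + (39 / 100 - 120) * x + (39 / 100) ^ 2 - 120 * (39 / 100) + 300 := by
        nlinarith
      nlinarith
    · rw [hh]
      have hc : ContinuousOn (fun x : ℝ => x ^ 3 - 120 * x ^ 2 + 300 * x - 100)
        (Set.Icc 0 (1 / 2)) := by fun_prop
      obtain ⟨x, hx, hx0⟩ := intermediate_value_Icc (by norm_num : (0 : ℝ) ≤ 1 / 2) hc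
        (by norm_num : (0 : ℝ) ∈ Set.Icc _ _)
      exact ⟨x, by have := hx.2; norm_num; linarith, hx0⟩
  · obtain ⟨hf, hl, hh⟩ := h
    refine lre_principal_aux α _ hf (fun x => (x - 10) ^ 3) (fun x => ?_) ?_ ?_
    · rw [det_U3]; push_cast; ring
    · intro x hx; rw [hl] at hx; norm_num at hx;
      exact pow_ne_zero _ (by intro h0; linarith)
    · rw [hh]; exact ⟨10, by norm_num, by norm_num⟩
  · obtain ⟨hf, hl, hh⟩ := h
    refine lre_principal_aux α _ hf
      (fun x => x ^ 4 - 130 * x ^ 3 + 600 * x ^ 2 - 1300 * x + 100) (fun x => ?_) ?_ ?_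
    · rw [det_A4]; push_cast; ring
    · intro x hx; rw [hl] at hx; norm_num at hx; intro h0
      have h2 : 0 ≤ x ^ 4 := by positivity
      have h3 : x ^ 3 ≤ 0 := by
        have : x ^ 3 = x * x ^ 2 := by ring
        rw [this]
        exact mul_nonpos_of_nonpos_of_nonneg hx.le (by positivity)
      have h4 : 0 ≤ x ^ 2 := by positivity
      nlinarith
    · rw [hh]
      have hc : ContinuousOn (fun x : ℝ => x ^ 4 - 130 * x ^ 3 + 600 * x ^ 2 - 1300 * x + 100)
        (Set.Icc 0 (1 / 10)) := by fun_prop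
      obtain ⟨x, hx, hx0⟩ := intermediate_value_Icc' (by norm_num : (0 : ℝ) ≤ 1 / 10) hc
        (by norm_num : (0 : ℝ) ∈ Set.Icc _ _)
      exact ⟨x, by have := hx.2; norm_num; linarith, hx0⟩

lemma M_omega : IsOmegaMatrix M := by
  intro α β hβ hβα
  refine ⟨?_, lt_of_le_of_lt (lre_bounds β hβ).2 (EReal.coe_lt_top _)⟩
  by_cases h : β = α
  · rw [h]
  · refine (lre_bounds α (hβ.mono hβα)).2.trans (le_trans ?_ (lre_bounds β hβ).1)
    have h1 : ((hi α : ℝ)) ≤ (lo β : ℝ) := by exact_mod_cast hi_le_lo α β hβ hβα h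
    have h2 : ((hi α : ℝ)) / 100 ≤ (lo β : ℝ) / 100 := by linarith
    exact_mod_cast h2

lemma M_eq_toC : M = toC MZ := rfl

lemma M_tau : IsTauMatrix M := by
  refine ⟨M_omega, ?_⟩
  have h := le_lre M (fun x => x ^ 4 - 130 * x ^ 3 + 600 * x ^ 2 - 1300 * x + 100)
    (fun x => by rw [M_eq_toC, det_A4]; push_cast; ring) 0 (fun x hx h0 => by
      have h2 : 0 ≤ x ^ 4 := by positivity
      have h3 : x ^ 3 ≤ 0 := by
        have : x ^ 3 = x * x ^ 2 := by ring
        rw [this]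
        exact mul_nonpos_of_nonpos_of_nonneg hx.le (by positivity)
      have h4 : 0 ≤ x ^ 2 := by positivity
      nlinarith)
  simpa using h

/-- A quadratic `z ^ 2 - t z + 10` with real `t > 0` has its roots in the open right half-plane. -/
lemma quad_stable (t : ℝ) (ht : 0 < t) (z : ℂ) (hz : z ^ 2 - t * z + 10 = 0) : 0 < z.re := by
  have hre := congrArg Complex.re hz
  have him := congrArg Complex.im hz
  simp [pow_two] at hre him
  have him' : z.im * (2 * z.re - t) = 0 := by linarith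
  rcases mul_eq_zero.1 him' with h | h
  · rw [h] at hre
    nlinarith
  · linarith

lemma M_stable : IsStable M := by
  intro z hz
  rw [mem_spectrum_iff, M_eq_toC, det_A4] at hz
  have hs : (Real.sqrt 5) ^ 2 = 5 := Real.sq_sqrt (by norm_num)
  have hsC : ((Real.sqrt 5 : ℝ) : ℂ) ^ 2 = 5 := by exact_mod_cast hs
  have hfac : (z ^ 2 - ((65 + 27 * Real.sqrt 5 : ℝ) : ℂ) * z + 10) *
      (z ^ 2 - ((65 - 27 * Real.sqrt 5 : ℝ) : ℂ) * z + 10) = 0 := by
    rw [← hz]
    push_cast
    linear_combination (-729 * z ^ 2) * hsC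
  have h5 : Real.sqrt 5 < 2.4 := by
    rw [show (2.4 : ℝ) = Real.sqrt (2.4 ^ 2) from (Real.sqrt_sq (by norm_num)).symm]
    exact Real.sqrt_lt_sqrt (by norm_num) (by norm_num)
  have h5' : 0 ≤ Real.sqrt 5 := Real.sqrt_nonneg 5
  rcases mul_eq_zero.1 hfac with h | h
  · exact quad_stable _ (by linarith) z h
  · exact quad_stable _ (by linarith) z h

/-- There is a stable GKK τ-matrix of order 4 which violates Newton's inequality
`c_2 ^ 2 ≥ c_1 c_3`. -/
theorem result : ∃ A : Matrix (Fin 4) (Fin 4) ℂ,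
    IsStable A ∧ IsGKK A ∧ IsTauMatrix A ∧ c A 2 ^ 2 < c A 1 * c A 3 :=
  ⟨M, M_stable, ⟨M_wss, M_pmatrix⟩, M_tau, M_newton⟩

end Pool.Agent.Results.MP_ba9f40_al.Counterexample
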